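import Pool.Agent.Run7.h789.UN.Nf
import Pool.Agent.NH29.GH.Fmt
import Pool.Agent.NH29.GN.Fin3

/-!
MP_651af7_nt, Q1: uniformity in Vojta's inequality for algebraic points of bounded degree. With
respect to `D = F_1 ⋯ F_q = 0`, for `q ≥ n r + 2` Zariski-general hypersurface sections of large
degree of an arbitrary projective variety of dimension `n`, the inequality
  `m_P (D, x) < h_D (x) - B`
holds for all algebraic points `x` of degree at most `r` off `D`, with at most `N` exceptions, and
`N` does not depend on `D`. Equivalently: the number of the algebraic points of degree at most `r`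
which are integral with respect to `D`, up to a counting function bounded by `B`, is bounded by a
constant that does not depend on `D`.

Let `k` be a number field. Let `V` be a closed subset of projective space, given by forms with
coefficients in `k`, of dimension at most `n`: there are `n + 1` linear forms over `k` without
common zero on `V`. Let `r ≥ 1`, `q ≥ n r + 2`, and let `d_1, …, d_q` be positive integers with
`r (q - 1) < (q - n r - 1) (d_b + 2 - r)` for all `b`; this holds for example if all
`d_b ≥ n r ^ 2 + 2 r - 1`.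

THEOREM. There is a nonzero polynomial `Φ`, with coefficients in `k`, in the coefficients of `q`
forms of degrees `d_1, …, d_q`, with the following property. For all number fields `κ` which contain
`k`, all finite sets `P` of primes and all real numbers `B` there is a natural number `N` such that
for all forms `F = (F_1, …, F_q)` of degrees `d_1, …, d_q` over `κ` with `Φ (F) ≠ 0`:
(1) there are at most `N` points `x` of `V` off `D`, of degree at most `r` over `κ`, with
  `N_P (D, x) ≤ B`;
(2) there are at most `N` points `x` of `V` off `D`, of degree at most `r` over `κ`, with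
  `m_P (D, x) ≥ ∑ h (F_b) + (∑ d_b) h (x) - B`.
Here `h` is the absolute logarithmic height, `N_P (D, x)` is the counting function, the sum over all
`b` and all places `w` of a field of definition `E` of `x` which are finite and not over primes in
`P`, and `m_P (D, x)` is the proximity function, the sum over all `b` and all other places `w` of
`E`, of the local heights
  `log (|F_b|_w |x|_w ^ {d_b} / |F_b (x)|_w)`,
with the usual normalization (divided by the degree of `E`). The local heights at finite places are
nonnegative, and so (1) with `B = 0` is a bound for the number of all points of degree at most `r`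
which are integral with respect to `D` outside `P`. In (2), `∑ h (F_b) + (∑ d_b) h (x)` is a height
`h_D` for `D`, in a normalization that is the right one for the family of all `D`.
-/

set_option autoImplicit false

namespace Pool.Agent.Results.MP_651af7_nt.UniformNumberOfPoints

open MvPolynomial Module Height NumberField
open scoped LinearAlgebra.Projectivization

variable {k : Type} [Field k] {M q : ℕ}

/-- The closed subset of the projective space of dimension `M` given by the forms in `V` has
dimension at most `n`: there are `n + 1` linear forms without common zero on it. -/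
def DimLE (V : Set (MvPolynomial (Fin (M + 1)) k)) (n : ℕ) : Prop :=
  ∃ ℓ : Fin (n + 1) → MvPolynomial (Fin (M + 1)) k, (∀ j, (ℓ j).IsHomogeneous 1) ∧
    ∀ y : Fin (M + 1) → AlgebraicClosure k,
      (∀ H ∈ V, aeval y H = 0) → (∀ j, aeval y (ℓ j) = 0) → y = 0

/-- The indices of the coefficients of `q` forms of degrees `d i` in `M + 1` variables. -/
abbrev Index (M : ℕ) {q : ℕ} (d : Fin q → ℕ) : Type :=
  (i : Fin q) × {β : Fin (M + 1) →₀ ℕ // β.degree = d i}

/-- `F` is a family of forms of degrees `d i`, and `Φ (F) ≠ 0`. -/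
def General {κ : Type} [Field κ] [Algebra k κ] {d : Fin q → ℕ} (Φ : MvPolynomial (Index M d) k)
    (F : Fin q → MvPolynomial (Fin (M + 1)) κ) : Prop :=
  (∀ i, (F i).IsHomogeneous (d i)) ∧ aeval (fun s : Index M d => coeff s.2.1 (F s.1)) Φ ≠ 0

/-- The family of the coefficients of a form of degree `e`. -/
def coeffs {κ : Type} [Field κ] (e : ℕ) (F : MvPolynomial (Fin (M + 1)) κ) :
    {β : Fin (M + 1) →₀ ℕ // β.degree = e} → κ :=
  fun β => coeff β.1 F

/-- The absolute logarithmic height of a point of projective space. -/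
noncomputable def absHeight {E : Type} [Field E] [NumberField E] {ι : Type} (x : ι → E) : ℝ :=
  logHeight x / (finrank ℚ E : ℝ)

/-- The local height `log (|F|_w |x|_w ^ e / |F (x)|_w)` of the point `x` over `E`, with respect to
the hypersurface `F = 0`, where `F` is a form of degree `e` over `κ`, and `w` an absolute value of
`E`. -/
noncomputable def localHeight {κ E : Type} [Field κ] [Field E] [Algebra κ E] (w : E → ℝ) (e : ℕ)
    (F : MvPolynomial (Fin (M + 1)) κ) (x : Fin (M + 1) → E) : ℝ :=
  Real.log ((⨆ β, w (algebraMap κ E (coeffs e F β))) * (⨆ a, w (x a)) ^ e / w (aeval x F))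

/-- The counting function of the hypersurface `F = 0` at the point `x` over `E`: the sum over the
finite places which are not over primes in `P`, divided by the degree of `E`. -/
noncomputable def counting {κ E : Type} [Field κ] [Field E] [NumberField E] [Algebra κ E]
    (P : Finset ℕ) (e : ℕ) (F : MvPolynomial (Fin (M + 1)) κ) (x : Fin (M + 1) → E) : ℝ :=
  (∑ᶠ w : {w : FinitePlace E // ∀ p ∈ P, w (p : E) = 1}, localHeight w.1 e F x) /
    (finrank ℚ E : ℝ)

/-- The proximity function of the hypersurface `F = 0` at the point `x` over `E`: the sum over the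
infinite places and the places over primes in `P`, divided by the degree of `E`. -/
noncomputable def proximity {κ E : Type} [Field κ] [Field E] [NumberField E] [Algebra κ E]
    (P : Finset ℕ) (e : ℕ) (F : MvPolynomial (Fin (M + 1)) κ) (x : Fin (M + 1) → E) : ℝ :=
  (∑ w : InfinitePlace E, (w.mult : ℝ) * localHeight w e F x +
    ∑ᶠ w : {w : FinitePlace E // ¬ ∀ p ∈ P, w (p : E) = 1}, localHeight w.1 e F x) /
    (finrank ℚ E : ℝ)

/-- The points `p` of `V` off `F_1 ⋯ F_q = 0` over the algebraic closure of `κ`, of degree at most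
`r` over `κ`, with the property `C`: the point `p` has coordinates `x` in an extension `E` of `κ` of
degree at most `r`, and `C E x` holds. -/
def points {κ : Type} [Field κ] [Algebra k κ] (V : Set (MvPolynomial (Fin (M + 1)) k))
    (F : Fin q → MvPolynomial (Fin (M + 1)) κ) (r : ℕ)
    (C : ∀ (E : IntermediateField κ (AlgebraicClosure κ)) [NumberField E],
      (Fin (M + 1) → E) → Prop) :
    Set (ℙ (AlgebraicClosure κ) (Fin (M + 1) → AlgebraicClosure κ)) :=
  {p | ∃ (E : IntermediateField κ (AlgebraicClosure κ)) (_ : NumberField E) (x : Fin (M + 1) → E)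
    (hx : (fun a => (x a : AlgebraicClosure κ)) ≠ 0),
      p = Projectivization.mk (AlgebraicClosure κ) (fun a => (x a : AlgebraicClosure κ)) hx ∧
      finrank κ E ≤ r ∧ (∀ H ∈ V, aeval x (map (algebraMap k κ) H) = 0) ∧
      (∀ b, aeval x (F b) ≠ 0) ∧ C E x}

/-- The conclusion of the theorem. -/
def Conclusion (V : Set (MvPolynomial (Fin (M + 1)) k)) (d : Fin q → ℕ) (r : ℕ) : Prop :=
  ∃ Φ : MvPolynomial (Index M d) k, Φ ≠ 0 ∧
    ∀ (κ : Type) [Field κ] [NumberField κ] [Algebra k κ] (P : Finset ℕ), (∀ p ∈ P, p.Prime) →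
      ∀ B : ℝ, ∃ N : ℕ, ∀ F : Fin q → MvPolynomial (Fin (M + 1)) κ, General Φ F →
        -- (1)
        (points V F r fun _ _ x => ∑ b, counting P (d b) (F b) x ≤ B).encard ≤ N ∧
        -- (2)
        (points V F r fun _ _ x => ∑ b, absHeight (coeffs (d b) (F b)) +
          (∑ b, (d b : ℝ)) * absHeight x - B ≤ ∑ b, proximity P (d b) (F b) x).encard ≤ N

section Proof

open Pool.Agent.NH29.GN (Idx Mon fv val)
open Pool.Agent.NH29.GH
open Run7.h789.UN (PtSet nf)

theorem sum_eq {κ E : Type} [Field κ] [Field E] [Algebra κ E] {e : ℕ}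
    {F : MvPolynomial (Fin (M + 1)) κ} (hF : F.IsHomogeneous e) (x : Fin (M + 1) → E) :
    ∑ β : Mon M e, algebraMap κ E (coeff β.1 F) * val x β.1 = aeval x F := by
  classical
  rw [aeval_def]
  exact (Pool.Agent.NH29.GN.Stc.eval₂_form (algebraMap κ E) x hF).symm

theorem fv_eq {κ E : Type} [Field κ] [Field E] [Algebra κ E] {d : Fin q → ℕ}
    {F : Fin q → MvPolynomial (Fin (M + 1)) κ} (hF : ∀ i, (F i).IsHomogeneous (d i))
    (x : Fin (M + 1) → E) (b : Fin q) :
    fv (K := κ) (L := E) (fun s : Idx M d => coeff s.2.1 (F s.1)) x b = aeval x (F b) :=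
  sum_eq (hF b) x

theorem counting_eq {κ E : Type} [Field κ] [Field E] [NumberField E] [Algebra κ E] (P : Finset ℕ)
    {e : ℕ} {F : MvPolynomial (Fin (M + 1)) κ} (hF : F.IsHomogeneous e) (x : Fin (M + 1) → E) :
    counting P e F x =
      cntP P (fun β : Mon M e => algebraMap κ E (coeff β.1 F)) x / (finrank ℚ E : ℝ) := by
  unfold counting cntP localHeight
  rw [sum_eq hF]
  rfl

theorem proximity_eq {κ E : Type} [Field κ] [Field E] [NumberField E] [Algebra κ E]
    (P : Finset ℕ) {e : ℕ} {F : MvPolynomial (Fin (M + 1)) κ} (hF : F.IsHomogeneous e)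
    (x : Fin (M + 1) → E) :
    proximity P e F x =
      proxP P (fun β : Mon M e => algebraMap κ E (coeff β.1 F)) x / (finrank ℚ E : ℝ) := by
  unfold proximity proxP localHeight
  rw [sum_eq hF]
  rfl

theorem logHeight_ext' {κ E : Type} [Field κ] [NumberField κ] [Field E] [NumberField E]
    [Algebra κ E] (e : ℕ) (x : Mon M e → κ) :
    logHeight (fun β => algebraMap κ E (x β)) / (finrank ℚ E : ℝ) =
      logHeight x / (finrank ℚ κ : ℝ) := by
  have : Nonempty (Mon M e) := ⟨Pool.Agent.NH29.GN.Hi.mon0 M e⟩
  have h1 := Ext.pos κ E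
  have h2 := fin_pos κ
  rw [Pool.Agent.Helper259.HtExt.logHeight_ext, Ext.deg κ E]
  field_simp

/-- the first main theorem -/
theorem first_main {κ E : Type} [Field κ] [NumberField κ] [Field E] [NumberField E] [Algebra κ E]
    (P : Finset ℕ) {d : Fin q → ℕ} {F : Fin q → MvPolynomial (Fin (M + 1)) κ}
    (hF : ∀ i, (F i).IsHomogeneous (d i)) (x : Fin (M + 1) → E) (hx : ∀ b, aeval x (F b) ≠ 0) :
    ∑ b, proximity P (d b) (F b) x + ∑ b, counting P (d b) (F b) x =
      ∑ b, absHeight (coeffs (d b) (F b)) + (∑ b, (d b : ℝ)) * absHeight x := by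
  have h4 : ∀ b, proximity P (d b) (F b) x + counting P (d b) (F b) x =
      absHeight (coeffs (d b) (F b)) + d b * absHeight x := by
    intro b
    have h5 := fmt E P M (d b) (fun β : Mon M (d b) => algebraMap κ E (coeff β.1 (F b))) x (by
      rw [sum_eq (hF b)]
      exact hx b)
    rw [counting_eq P (hF b), proximity_eq P (hF b), ← add_div, h5, add_div,
      logHeight_ext' (d b)]
    unfold absHeight
    rw [mul_div_assoc]
    rfl
  rw [← Finset.sum_add_distrib, Finset.sum_congr rfl fun b _ => h4 b, Finset.sum_add_distrib,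
    Finset.sum_mul]

theorem counting_nonneg {κ E : Type} [Field κ] [NumberField κ] [Field E] [NumberField E]
    [Algebra κ E] (P : Finset ℕ) (hP : ∀ p ∈ P, p ≠ 0) {d : Fin q → ℕ}
    {F : Fin q → MvPolynomial (Fin (M + 1)) κ} (hF : ∀ i, (F i).IsHomogeneous (d i))
    (x : Fin (M + 1) → E) (hx : ∀ b, aeval x (F b) ≠ 0) (b : Fin q) :
    0 ≤ counting P (d b) (F b) x := by
  rw [counting_eq P (hF b)]
  refine div_nonneg ?_ (Nat.cast_nonneg _)
  refine (cnp E P hP M q d (fun s : Idx M d => algebraMap κ E (coeff s.2.1 (F s.1))) x b b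
    ?_ ?_).1 <;>
  · rw [fv_self (κ := κ) (E := E) (fun s : Idx M d => coeff s.2.1 (F s.1)), fv_eq hF]
    exact hx b

theorem conclusion [NumberField k] {n r : ℕ} {V : Set (MvPolynomial (Fin (M + 1)) k)}
    (hV : ∀ H ∈ V, ∃ e, H.IsHomogeneous e) (hn : DimLE V n) {d : Fin q → ℕ} (hd : ∀ i, 1 ≤ d i)
    (hq : n * r + 2 ≤ q) (hnum : ∀ b, r * (q - 1) < (q - n * r - 1) * (d b + 2 - r)) :
    Conclusion V d r := by
  classical
  obtain ⟨ℓ, hℓ, hℓ0⟩ := hn
  obtain ⟨Φ, hΦ, h1⟩ := nf hV hℓ (Pool.Agent.NH29.GN.Fn.noZero_of_points hℓ0) hd hq hnum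
  refine ⟨Φ, hΦ, fun κ _ _ _ P hP B => ?_⟩
  have hP0 : ∀ p ∈ P, p ≠ 0 := fun p hp => (hP p hp).ne_zero
  obtain ⟨N, hN⟩ := h1 κ P hP0 (|B| * ((finrank ℚ κ : ℝ) * r))
  refine ⟨N, fun F hF => ?_⟩
  have key : (points V F r fun _ _ x => ∑ b, counting P (d b) (F b) x ≤ B).encard ≤ N := by
    refine le_trans (Set.encard_le_encard ?_) (hN _ hF.2)
    rintro p ⟨E, hE, x, hx, hp, hr, hxV, hxo, hB⟩
    have hfin : 0 < finrank κ E := finrank_pos
    rw [Set.mem_iUnion₂]
    refine ⟨finrank κ E, Finset.mem_Icc.2 ⟨hfin, hr⟩, E, hE, x, hx, rfl, hp, ?_, ?_⟩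
    · refine ⟨?_, fun H hH => ?_, fun b => ?_⟩
      · rintro rfl
        exact hx rfl
      · have h2 := hxV H hH
        rwa [aeval_def, eval₂_map] at h2
      · rw [fv_eq hF.1]
        exact hxo b
    · intro b
      have h2 : counting P (d b) (F b) x ≤ B :=
        (Finset.single_le_sum (f := fun b => counting P (d b) (F b) x)
          (fun b _ => counting_nonneg P hP0 hF.1 x hxo b) (Finset.mem_univ b)).trans hB
      rw [counting_eq P (hF.1 b), div_le_iff₀ (fin_pos E)] at h2
      refine h2.trans ?_
      have h3 : (finrank ℚ E : ℝ) ≤ finrank ℚ κ * r := by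
        rw [← Module.finrank_mul_finrank ℚ κ E]
        push_cast
        exact mul_le_mul_of_nonneg_left (by exact_mod_cast hr) (Nat.cast_nonneg _)
      calc B * (finrank ℚ E : ℝ) ≤ |B| * finrank ℚ E :=
            mul_le_mul_of_nonneg_right (le_abs_self B) (Nat.cast_nonneg _)
        _ ≤ |B| * ((finrank ℚ κ : ℝ) * r) := mul_le_mul_of_nonneg_left h3 (abs_nonneg B)
  refine ⟨key, le_trans (Set.encard_le_encard ?_) key⟩
  rintro p ⟨E, hE, x, hx, hp, hr, hxV, hxo, hB⟩
  refine ⟨E, hE, x, hx, hp, hr, hxV, hxo, ?_⟩
  have h2 := first_main P hF.1 x hxo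
  linarith

end Proof

theorem result {k : Type} [Field k] [NumberField k] {M n q r : ℕ}
    -- the variety
    (V : Set (MvPolynomial (Fin (M + 1)) k)) (hV : ∀ H ∈ V, ∃ e, H.IsHomogeneous e)
    (hn : DimLE V n)
    -- the degrees
    (d : Fin q → ℕ) (hd : ∀ b, 0 < d b) (hq : n * r + 2 ≤ q)
    (h : ∀ b, r * (q - 1) < (q - n * r - 1) * (d b + 2 - r)) :
    Conclusion V d r :=
  conclusion hV hn hd hq h

end Pool.Agent.Results.MP_651af7_nt.UniformNumberOfPoints
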